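import Pool.Agent.MP_ee8c61_ag.Q3BK.Crv
import Pool.Agent.MP_ee8c61_ag.Q3.Defs
import Pool.Agent.MP_ee8c61_ag.M3Z.IZ
import Pool.Agent.MP_ee8c61_ag.M3E.Final
import Pool.Agent.MP_ee8c61_ag.M3RESID.U3

/-! The volume form on a double curve of exponent zero. -/

namespace Pool.Agent.MP_ee8c61_ag.Q3BK

open M3 M3RESID M3BK M3F WithZero Pool.Agent.MP_cce4c9_lc.H87
open scoped IntermediateField

noncomputable section

section Crv

variable {k : Type} [Field k] [Algebra ℂ k]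

/-- On a curve all vector fields are proportional. -/
theorem vf_mul (hk : IsFF ℂ k) {D : VF k} (D0 : D ≠ 0) (w : VF k) : ∃ g : k, w = g • D := by
  obtain ⟨s, -, h⟩ := hk
  have key : ∀ X : VF k, X s = 0 → X = 0 := fun X hX => Derivation.ext fun x =>
    kill_alg ℂ⟮s⟯ X (fun y hy => (IntermediateField.adjoin_simple_le_iff.2
      (show s ∈ cst {X} by simpa [mem_cst] using hX) hy) X rfl) (Algebra.IsAlgebraic.isAlgebraic x)
  have h1 : D s ≠ 0 := fun e => D0 (key D e)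
  exact ⟨w s / D s, sub_eq_zero.1 (key _ (by
    rw [Derivation.sub_apply, Derivation.smul_apply, smul_eq_mul, div_mul_cancel₀ _ h1, sub_self]))⟩

/-- A rationally twisted form has a rational exponent at every place. -/
theorem exists_exp (hk : IsFF ℂ k) {e : Dv k} (hr : Rat1 e) {U : DV k} (hU : Nrm U) :
    ∃ a : ℚ, Exp e U a := by
  have := cz (K0 k)
  have := cz k
  obtain ⟨D, q, ψ, D0, hq, hψ, hd⟩ := hr
  obtain ⟨g, N, hD⟩ := gf (K0 k) k (isFF0 hk) cl0 (rel (K0 k) D (kill0 D)) fun h =>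
    D0 (Derivation.ext fun x => congrArg (fun Z : Derivation (K0 k) k k => Z x) h)
  obtain ⟨P, rfl⟩ := exists_place (hor_iff.2 hU)
  have hπ := M3C.val_unif P
  have hX : P.val (D (M3C.unif P)) = _ := hD.uni P _ hπ
  have hE := eul_of (X := D) hπ hX (hD.reg P)
  generalize M3C.unif P = π at hπ hX hE
  have hπ0 : π ≠ 0 := fun e => by simp [e] at hπ; exact exp_ne_zero hπ.symm
  have hX0 : D π ≠ 0 := fun e => by simp [e] at hX; exact exp_ne_zero hX.symm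
  have hq0 : (q : k) ≠ 0 := Nat.cast_ne_zero.2 hq.ne'
  have hρ := div_ne_zero hπ0 hX0
  have vπ : (dvOf P).v π = 1 := P.ord_eq hπ
  obtain ⟨θ, hθ⟩ : ∃ θ, θ = (π / D π) • D := ⟨_, rfl⟩
  have θπ : θ π = π := by rw [hθ, Derivation.smul_apply, smul_eq_mul, div_mul_cancel₀ _ hX0]
  have θ0 : θ ≠ 0 := fun e => hπ0 (by rw [← θπ, e, Derivation.zero_apply])
  have e1 : e.δ θ - algebraMap ℂ k (((dvOf P).v ψ / q + (dvOf P).v (π / D π) : ℚ) : ℂ) ∈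
      (dvOf P).F 1 := by
    have e2 := F_mul0 (cst_F (dvOf P) (q : ℂ)⁻¹) (hE.dlog hψ)
    refine F_of_eq (add_mem e2 (hE.dlog hρ)) ?_
    rw [hθ, e.smul, hd]
    simp only [Derivation.smul_apply, smul_eq_mul, map_ratCast, map_inv₀, map_natCast]
    push_cast
    field_simp
    ring
  rw [← hθ] at hE
  have hL : θ ∈ LV (dvOf P) 0 := M3RESID.Eul.mem hE
  refine ⟨_, fun v hv => ?_, fun v => ?_, θ, hE, e1⟩
  · obtain ⟨t, rfl⟩ := vf_mul hk θ0 v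
    have h1 := F_div (hv 1 π (Or.inr vπ.ge)) π
    rw [Derivation.smul_apply, θπ, smul_eq_mul, mul_div_cancel_right₀ _ hπ0, vπ] at h1
    have h2 : t ∈ (dvOf P).F 0 := by simpa using h1
    rw [e.smul]
    refine add_mem (F_mul0 h2 ?_) (by simpa using hL 0 t h2)
    exact F_of_eq (add_mem ((dvOf P).F_anti zero_le_one e1) (cst_F _ _)) (sub_add_cancel _ _).symm
  · obtain ⟨t, rfl⟩ := vf_mul hk θ0 v
    refine ⟨(dvOf P).v t, fun m g hg => ?_⟩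
    have := (dvOf P).F_mul ((dvOf P).mem_F_self t) (hL m g hg)
    rwa [add_zero, add_comm] at this

variable {L : Type} [Field L] [Algebra ℂ L] {G : Pl L k} {C : Co L 2} {d : Dv L}

open M3Z in
theorem rs_all (hk : IsFF ℂ k) (hA : C.At G.o 0) (w : VF k) : ∃ v, G.Rs v w := by
  obtain ⟨D, hD⟩ := exists_Rs G (hA.D_LV (j := 1) (by decide))
  have h1 : D (G.π (C.z 1)) = 1 := by rw [← hD.2 _ (M3J.z1_F hA), C.dual, if_pos rfl, pi_one]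
  obtain ⟨g, rfl⟩ := vf_mul hk (D := D) (fun e => by simp [e] at h1) w
  obtain ⟨t, ht, rfl⟩ := G.surj g
  exact ⟨_, hD.smul ht⟩

open M3Z in
theorem rat1 (hA : C.At G.o 0) (hE : Exp d G.o 0) {C₀ : Co L 2} {q : ℕ} {ψ : L} (hq : 0 < q)
    (hψ : ψ ≠ 0) (hd : ∀ X, d.δ X = C₀.dv.δ X + X ψ / (q * ψ)) {e : Dv k} (he : G.RsD d e) :
    Rat1 e := by
  have := cz k
  have := cz L
  have hq' : (q : k) ≠ 0 := Nat.cast_ne_zero.2 hq.ne'
  obtain ⟨D, hD⟩ := exists_Rs G (hA.D_LV (j := 1) (by decide))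
  have h1 : D (G.π (C.z 1)) = 1 := by rw [← hD.2 _ (M3J.z1_F hA), C.dual, if_pos rfl, pi_one]
  obtain ⟨J, hJ⟩ : ∃ J, J = M3J.br C (C₀.z 0) (C₀.z 1) := ⟨_, rfl⟩
  have hJ0 : J ≠ 0 := hJ ▸ M3J.br_ne C C₀
  obtain ⟨N, hN⟩ : ∃ N, N = G.o.v (ψ * J ^ q) := ⟨_, rfl⟩
  have hΨ0 : ψ * J ^ q ≠ 0 := mul_ne_zero hψ (pow_ne_zero _ hJ0)
  have hz := zpow_ne_zero N (C.ne 0)
  have hΨ : ψ * J ^ q / C.z 0 ^ N ≠ 0 := div_ne_zero hΨ0 hz
  have hΨv : G.o.v (ψ * J ^ q / C.z 0 ^ N) = 0 := by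
    rw [div_eq_mul_inv, G.o.mul _ _ hΨ0 (inv_ne_zero hz), G.o.inv, v_zpow _ (C.ne 0), hA.vz, ← hN]
    ring
  have hκ : (q : L) * d.δ (C.D 1) = C.D 1 (ψ * J ^ q / C.z 0 ^ N) / (ψ * J ^ q / C.z 0 ^ N) := by
    have hqL : (q : L) ≠ 0 := Nat.cast_ne_zero.2 hq.ne'
    obtain ⟨r, rfl⟩ : ∃ r, q = r + 1 := ⟨q - 1, by omega⟩
    rw [hd, jacobi C C₀, ← hJ, Co.dv_δ, Fin.sum_univ_two, C.dual, C.dual, Derivation.leibniz_div,
      Dv.zpow_der _ _ (C.ne 0), C.dual, Derivation.leibniz, Derivation.leibniz_pow]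
    simp only [smul_eq_mul, nsmul_eq_mul, Nat.add_sub_cancel]
    simp
    field_simp
    ring
  obtain ⟨Ψ, hΨe⟩ : ∃ Ψ, Ψ = ψ * J ^ q / C.z 0 ^ N := ⟨_, rfl⟩
  rw [← hΨe] at hΨ hΨv hκ
  have hΨF : Ψ ∈ G.o.F 0 := Or.inr hΨv.ge
  have hp := pi_ne hΨ hΨv
  have hκ' : (q : k) * G.π (d.δ (C.D 1)) = D (G.π Ψ) / G.π Ψ := by
    rw [← hD.2 _ hΨF, ← pi_div (hA.D 1 _ hΨF) hΨ hΨv, ← hκ,
      G.mul _ (by simpa using int_F (o := G.o) q) _ (M3J.dv_D1 hA hE), pi_nat]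
  refine ⟨D, q, G.π Ψ, fun e => by simp [e] at h1, hq, hp, ?_⟩
  rw [← he _ _ hD, mul_comm, ← div_div, ← hκ', mul_div_cancel_left₀ _ hq']

end Crv

variable {f : Po 3} {M : M3.Mod 3} {la : ℚ} {o j : M.J} {G : DV (M.v o).kf} {e : Dv (M.v o).kf}

open M3E in
/-- A double curve is a flag. -/
theorem flag (hM : M.OK f) (hG : Nrm G) (hV : M.IsCv o j (lift (M.v o).pl G)) :
    M3Z.Fl f M (M.v o).pl G.pl o j :=
  ⟨hM, eout.bas _ f _ hM, eout.der _ f _ hM, eout.cv _ f _ hM, rowUnr, rfl, hG, hV⟩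

/-- The data on a double curve of exponent zero. -/
structure CvD (e : Dv (M.v o).kf) (G : DV (M.v o).kf) (e' : Dv G.kf) : Prop where
  zero : Exp e G 0
  ff : IsFF ℂ G.kf
  atc : ∃ C : Co (M.v o).kf 2, C.At G 0
  rs : ∀ w, ∃ v, G.pl.Rs v w
  rd : G.pl.RsD e e'
  rat : Rat1 e'
  exp : ∀ U, Nrm U → ∃ a : ℚ, Exp e' U a

theorem cvd (hM : M.OK f) (ho : M.ex la o = 0) (hj : M.ex la j = 0)
    (he : (M.v o).pl.RsD (dvf f la) e) (hG : Nrm G) (hV : M.IsCv o j (lift (M.v o).pl G)) :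
    ∃ e', CvD e G e' := by
  have hF := flag hM hG hV
  obtain ⟨b, hb⟩ := hM.cov _ hF.isc.2.1
  obtain ⟨l0, l1, l2, hl⟩ := hF.labels hb
  obtain ⟨C, hC, hA⟩ := hF.exists_co2 hb hl 0
  have hk := hF.isFF hb hl
  obtain ⟨p, hp⟩ := hG
  have hE : Exp e G 0 := by simpa [hj] using exp_isCv hM rfl ho he hp hV
  obtain ⟨e', he'⟩ := Pl.exists_RsD (P := G.pl) hE hp (rs_all hk hA)
  obtain ⟨C₀, ψ, e₀, h1, h2, h3⟩ := exists_rat (P := (M.v o).pl) hM ho rfl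
  obtain rfl : e₀ = e := h2.uniq he (hC.lift (hF.at3 hb hl 0))
  have hr := rat1 (G := G.pl) hA hE la.pos h1 h3 he'
  exact ⟨e', hE, hk, ⟨C, hA⟩, rs_all hk hA, he', hr, fun U hU => exists_exp hk hr hU⟩

theorem CvD.ty0 {e' : Dv G.kf} (h : CvD e G e') (h1 : Ty1 e')
    (hx : ∀ l, G.pl.π ((M.v o).pl.π (xx 3 l)) ∈ Set.range (algebraMap ℂ G.kf)) :
    Q3.TY0 e (xb (M.v o).pl) G := by
  obtain ⟨σ, θ, μ, h2, h3, h4⟩ := h1
  exact ⟨σ, θ, μ, h2, h3, fun e'' he => h.rd.uniq he h.rs ▸ h4, by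
    rintro _ ⟨l, rfl⟩
    exact hx l⟩

end

end Pool.Agent.MP_ee8c61_ag.Q3BK
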