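import Pool.Agent.MP_ee8c61_ag.M3BK.RPol

/-! The order of the pole of a sum of products. -/

namespace Pool.Agent.MP_ee8c61_ag.Q3BK

open M3 M3BK M3BK.RPol Finset

noncomputable section

variable {J : Type} {N k : J → ℕ} {la : ℚ} {a : J → ℂ}

/-- The local parameter. -/
def eps (la : ℚ) : RatFunc ℂ := RatFunc.X + RatFunc.C (la : ℂ)

/-- The factors. -/
def lin (N k : J → ℕ) (i : J) : RatFunc ℂ :=
  1 / ((N i : RatFunc ℂ) * RatFunc.X + (k i : RatFunc ℂ) + 1)

theorem eps_mem : eps la ∈ regAt (-(la : ℂ)) := add_mem (X_mem _) (C_mem _ _)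

open Classical in
/-- The leading term of a product. -/
theorem lead (hN : ∀ j, 0 < N j) (ha : ∀ j, a j = k j + 1 - la * N j) (I : Finset J) :
    ∃ r ∈ regAt (-(la : ℂ)), eps la ^ (I.filter fun j => a j = 0).card * ∏ i ∈ I, lin N k i =
      RatFunc.C (∏ j ∈ I, (if a j = 0 then (N j : ℂ) else a j)⁻¹) + eps la * r := by
  have hε : eps la ≠ 0 := eps_ne _
  have hNc : ∀ j, (N j : ℂ) ≠ 0 := fun j => Nat.cast_ne_zero.2 (hN j).ne'
  have hL : ∀ i, (N i : RatFunc ℂ) * RatFunc.X + (k i : RatFunc ℂ) + 1 =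
      RatFunc.C (a i) + RatFunc.C (N i : ℂ) * eps la := fun i => by
    rw [ha]
    simp only [eps, map_sub, map_add, map_mul, map_natCast, map_one]
    ring
  have hL0 : ∀ i, RatFunc.C (a i) + RatFunc.C (N i : ℂ) * eps la ≠ 0 := fun i h => by
    apply eps_ne ((la : ℂ) + a i / N i)
    have h4 : RatFunc.C (N i : ℂ)⁻¹ * RatFunc.C (N i : ℂ) = (1 : RatFunc ℂ) := by
      rw [← map_mul, inv_mul_cancel₀ (hNc i), map_one]
    rw [map_add, div_eq_mul_inv, map_mul]
    simp only [eps] at h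
    linear_combination RatFunc.C (N i : ℂ)⁻¹ * h - (RatFunc.X + RatFunc.C (la : ℂ)) * h4
  obtain ⟨r, hr, e⟩ := expand (regAt (-(la : ℂ))) (C_mem _) (eps la) eps_mem a
    (fun j => (N j : ℂ)) (lin N k) (I.filter fun j => a j ≠ 0) fun j hj => by
      have h0 := (mem_filter.1 hj).2
      refine ⟨lin_mem ?_, h0, ?_⟩
      · rw [ha] at h0
        exact fun h => h0 (by linear_combination h)
      · rw [lin, hL, one_div, inv_mul_cancel₀ (hL0 j)]
  have e0 : eps la ^ (I.filter fun j => a j = 0).card * ∏ j ∈ I with a j = 0, lin N k j =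
      RatFunc.C (∏ j ∈ I with a j = 0, (N j : ℂ)⁻¹) := by
    rw [map_prod, ← prod_const, ← prod_mul_distrib]
    refine prod_congr rfl fun j hj => ?_
    rw [lin, hL, (mem_filter.1 hj).2, map_zero, zero_add, one_div, mul_inv, map_inv₀,
      mul_left_comm, mul_inv_cancel₀ hε, mul_one]
  have eP : ∏ j ∈ I, (if a j = 0 then (N j : ℂ) else a j)⁻¹ =
      (∏ j ∈ I with a j = 0, (N j : ℂ)⁻¹) * ∏ j ∈ I with a j ≠ 0, (a j)⁻¹ := by
    rw [← prod_filter_mul_prod_filter_not I fun j => a j = 0]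
    congr 1
    · exact prod_congr rfl fun j hj => by rw [if_pos (mem_filter.1 hj).2]
    · exact prod_congr rfl fun j hj => by rw [if_neg (mem_filter.1 hj).2]
  refine ⟨RatFunc.C (∏ j ∈ I with a j = 0, (N j : ℂ)⁻¹) * (eps la * r -
    RatFunc.C ((∏ j ∈ I with a j ≠ 0, (a j)⁻¹) * ∑ j ∈ I with a j ≠ 0, N j / a j)),
    mul_mem (C_mem _ _) (sub_mem (mul_mem eps_mem hr) (C_mem _ _)), ?_⟩
  rw [← prod_filter_mul_prod_filter_not I fun j => a j = 0, ← mul_assoc, e0, e, eP]
  simp only [map_mul]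
  ring

variable [Fintype J] {c : Finset J → ℤ}

open Classical in
theorem ord_le (hN : ∀ j, 0 < N j) (ha : ∀ j, a j = k j + 1 - la * N j) {n : ℕ}
    (h : ∀ I, c I ≠ 0 → (I.filter fun j => a j = 0).card ≤ n) :
    eps la ^ n * ∑ I : Finset J, (c I : RatFunc ℂ) * ∏ i ∈ I, lin N k i ∈ regAt (-(la : ℂ)) := by
  rw [mul_sum]
  refine sum_mem fun I _ => ?_
  by_cases hc : c I = 0
  · simp [hc]
  obtain ⟨r, hr, e⟩ := lead hN ha I
  obtain ⟨m, rfl⟩ := Nat.exists_eq_add_of_le (h I hc)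
  rw [pow_add, mul_left_comm, mul_right_comm, e]
  exact mul_mem (intCast_mem _ _)
    (mul_mem (add_mem (C_mem _ _) (mul_mem eps_mem hr)) (pow_mem eps_mem m))

open Classical in
theorem ord_one (hN : ∀ j, 0 < N j) (ha : ∀ j, a j = k j + 1 - la * N j)
    (h : ∀ I, c I ≠ 0 → (I.filter fun j => a j = 0).card ≤ 2)
    (h0 : ∑ I with (I.filter fun j => a j = 0).card = 2,
      c I * ∏ j ∈ I, (if a j = 0 then (N j : ℂ) else a j)⁻¹ = 0) :
    eps la * ∑ I : Finset J, (c I : RatFunc ℂ) * ∏ i ∈ I, lin N k i ∈ regAt (-(la : ℂ)) := by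
  have hε : eps la ≠ 0 := eps_ne _
  have key : ∀ I : Finset J, eps la * ((c I : RatFunc ℂ) * ∏ i ∈ I, lin N k i) -
      RatFunc.C (if (I.filter fun j => a j = 0).card = 2 then
        c I * ∏ j ∈ I, (if a j = 0 then (N j : ℂ) else a j)⁻¹ else 0) * (eps la)⁻¹ ∈
      regAt (-(la : ℂ)) := fun I => by
    by_cases hc : c I = 0
    · simp [hc]
    obtain ⟨r, hr, e⟩ := lead hN ha I
    have hz := h I hc
    split_ifs with h2
    · rw [h2] at e
      have : eps la * ((c I : RatFunc ℂ) * ∏ i ∈ I, lin N k i) -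
          RatFunc.C (c I * ∏ j ∈ I, (if a j = 0 then (N j : ℂ) else a j)⁻¹) * (eps la)⁻¹ =
          c I * r := by
        rw [map_mul, map_intCast]
        linear_combination (c I : RatFunc ℂ) * (eps la)⁻¹ * e + (c I : RatFunc ℂ) *
          (r - eps la * ∏ i ∈ I, lin N k i) * inv_mul_cancel₀ hε
      rw [this]
      exact mul_mem (intCast_mem _ _) hr
    · obtain ⟨m, hm⟩ := Nat.exists_eq_add_of_le
        (show (I.filter fun j => a j = 0).card ≤ 1 by omega)
      rw [map_zero, zero_mul, sub_zero, ← pow_one (eps la), hm, pow_add, mul_left_comm,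
        mul_right_comm, e]
      exact mul_mem (intCast_mem _ _)
        (mul_mem (add_mem (C_mem _ _) (mul_mem eps_mem hr)) (pow_mem eps_mem m))
  have hs := sum_mem (S := regAt (-(la : ℂ))) (t := univ) fun I _ => key I
  rwa [sum_sub_distrib, ← sum_mul, ← map_sum, ← sum_filter, h0, map_zero, zero_mul, sub_zero,
    ← mul_sum] at hs

/-- A rational function without poles is a polynomial. -/
theorem poly_of_reg {Z : RatFunc ℂ} (h : ∀ s, Z ∈ regAt s) :
    ∃ Q : Polynomial ℂ, Z = algebraMap (Polynomial ℂ) (RatFunc ℂ) Q := by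
  have h1 : Z.denom = 1 := by
    by_contra hn
    obtain ⟨s, hs⟩ := IsAlgClosed.exists_root Z.denom fun h0 =>
      hn (Polynomial.eq_one_of_monic_natDegree_zero (RatFunc.monic_denom Z)
        (Polynomial.natDegree_eq_of_degree_eq_some h0))
    exact h s hs
  exact ⟨Z.num, by simpa [h1] using (RatFunc.num_div_denom Z).symm⟩

theorem poly_mem (s : ℂ) (p : Polynomial ℂ) :
    algebraMap (Polynomial ℂ) (RatFunc ℂ) p ∈ regAt s := fun h => by
  rw [RatFunc.denom_algebraMap] at h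
  simp at h

theorem mul_reg {b : Polynomial ℂ} {n : ℕ} {Z : RatFunc ℂ}
    (hb : (Polynomial.X + Polynomial.C (la : ℂ)) ^ n ∣ b) (h : eps la ^ n * Z ∈ regAt (-(la : ℂ))) :
    algebraMap (Polynomial ℂ) (RatFunc ℂ) b * Z ∈ regAt (-(la : ℂ)) := by
  obtain ⟨q, rfl⟩ := hb
  have e : algebraMap (Polynomial ℂ) (RatFunc ℂ) (Polynomial.X + Polynomial.C (la : ℂ)) =
      eps la := by simp [eps]
  rw [map_mul, map_pow, e, mul_right_comm]
  exact mul_mem h (poly_mem _ q)

end

end Pool.Agent.MP_ee8c61_ag.Q3BK
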