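import Pool.Agent.MP_ee8c61_ag.M3BK.Defs
import Pool.Agent.MP_ee8c61_ag.M3.FDefs

/-! The order of the poles in three variables: the statements that feed the bookkeeping. -/

namespace Pool.Agent.MP_ee8c61_ag.Q3BK

open M3 M3RESID M3BK Polynomial
open Pool.Agent.MP_96693b_ag.RS (Loc)

noncomputable section

/-- The curve is rational and the volume form is `σ ^ μ dlog σ`. -/
def Ty1 {k : Type} [Field k] [Algebra ℂ k] (e : Dv k) : Prop :=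
  ∃ (σ : k) (θ : VF k) (μ : ℂ), μ ≠ 0 ∧ P1 σ θ ∧ e.δ θ = algebraMap ℂ k μ

/-- A triple point of divisors of exponent zero gives a triple root. -/
def T3 : Prop := ∀ (f : Po 3) (la : ℚ) (b : ℂ[X]) (M : Mod 3) (Q : Loc (KK 3)) (o j l : M.J),
  f ≠ 0 → H10.IsBS ![f] b → M.OK f → Q ∈ M.pts → o ≠ j → o ≠ l → j ≠ l → M.ex la o = 0 →
  M.ex la j = 0 → M.ex la l = 0 → M.On Q o → M.On Q j → M.On Q l → (X + C (la : ℂ)) ^ 3 ∣ b

/-- At a simple root every double curve of divisors of exponent zero is complete and has a type. -/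
def T2 : Prop := ∀ (f : Po 3) (la : ℚ) (b : ℂ[X]) (M : Mod 3) (o j : M.J) (G : DV (M.v o).kf)
  (e : Dv (M.v o).kf) (e' : Dv G.kf), f ≠ 0 → H10.IsBS ![f] b → M.OK f →
  b.eval (-(la : ℂ)) = 0 → ¬(X + C (la : ℂ)) ^ 2 ∣ b → M.ex la o = 0 → M.ex la j = 0 → Nrm G →
  M.IsCv o j (lift (M.v o).pl G) → (M.v o).pl.RsD (dvf f la) e → G.pl.RsD e e' →
  Ty1 e' ∧ ∀ l, G.pl.π ((M.v o).pl.π (xx 3 l)) ∈ Set.range (algebraMap ℂ G.kf)

open AlgebraicGeometry in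
/-- The theorem. -/
def Main2 : Prop := ∀ (f : MvPolynomial (Fin 3) ℂ) (b : ℂ[X]) (Y : Scheme.{0})
  (π : Y ⟶ H95.Aff 3) (J : Type) [Fintype J] (E : J → Set Y) (a k : J → ℕ) (χ : Set Y → ℤ),
  f ≠ 0 → H10.IsBS ![f] b → H95.IsLogRes (Ideal.span {f}) π E a k → H95.IsChi π χ →
  ∃ Q : ℂ[X], algebraMap ℂ[X] (RatFunc ℂ) b * H95.zeta E a k χ = algebraMap ℂ[X] (RatFunc ℂ) Q

end

end Pool.Agent.MP_ee8c61_ag.Q3BK
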