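import Pool.Agent.MP_ee8c61_ag.M3.Final
import Pool.Agent.MP_ee8c61_ag.Q3BK.Spec
import Pool.Agent.MP_ee8c61_ag.Q3BK.Pol

/-! The order of the poles from the statements on triple points and double curves. -/

namespace Pool.Agent.MP_ee8c61_ag.Q3BK

open M3 M3RESID M3BK Set Polynomial
open Pool.Agent.MP_96693b_ag.RS (Loc)
open M3E (eout)
open M3L (scon schi)

theorem sintA : SINTA := rIntA scon schi

theorem sintB : SINTB := rIntB scon schi sintA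

theorem srg : SRG := rRg_of rPl scon schi sintA sintB rNrm rCrv rFl (rCur rP1) rP1

section Srf

variable {L : Type} [Field L] [Algebra ℂ L] {X₀ : Set L} {Λ : Type} {d : Dv L} {χ : H36.Chi}

theorem ty_of {C : Co L 2} {x : Loc L} {i : Fin 2} {G : DV L} (hx : Rg C x) (hG : C.Dat x.O G i)
    (hE : Exp d G 0) (h : ∀ e, G.pl.RsD d e → Ty1 e)
    (hc : ∀ c ∈ X₀, G.pl.π c ∈ range (algebraMap ℂ G.kf)) : TY d 0 0 X₀ G := by
  obtain ⟨-, -, -, h1, h2⟩ := (rFl L C x i hx).2.2.1 G hG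
  obtain ⟨e, he⟩ := Pl.exists_RsD (P := G.pl) hE hG.adp.vz h1
  obtain ⟨σ, θ, μ, h3, h4, h5⟩ := h e he
  refine ⟨σ, θ, μ, h3, h4, fun e' he' => he.uniq he' h1 ▸ h5, Or.inr fun w hw => ?_, hc⟩
  rw [zero_div, map_zero, zero_smul]
  exact h2 w 0 d 0 e hE he hw ⟨0, zero_mem _, by
    rw [sub_zero]
    exact ⟨zero_mem _, fun g _ => G.pl.π_zero⟩⟩

theorem rg_lab (S : LSf L X₀ Λ) (hχ : IsEu χ) {a : Λ → ℂ} (ha : S.Ad d a) {j : Λ} (hj : a j = 0)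
    (hT : ∀ x ∈ S.X, ∀ i G, S.lab x i = some j → (S.C x).Dat x.O G i → TY d 0 0 X₀ G) :
    Itg χ {x ∈ S.X | ∃ i, S.lab x i = some j} (fun x => w1 (S.ea a x)) = 0 := by
  have hs : {G | ∃ x ∈ S.X, ∃ i, S.lab x i = some j ∧ (S.C x).Dat x.O G i} ⊆ S.ZC a := by
    rintro G ⟨x, hx, i, hi, h⟩
    exact ⟨x, hx, i, by simpa [LSf.ea, hi] using hj, h⟩
  have hf := (S.ZC_fin a).subset hs
  have e : {x ∈ S.X | ∃ i, S.lab x i = some j} = ⋃ G ∈ hf.toFinset, S.On G := by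
    ext x
    simp only [mem_iUnion, exists_prop, Finite.mem_toFinset, mem_ofPred_eq]
    refine ⟨fun ⟨hx, i, hi⟩ => ?_, fun ⟨G, ⟨x', hx', i, hi, hG⟩, hx⟩ => ?_⟩
    · obtain ⟨G, U, hG⟩ := (rFl L _ x i (S.rg x hx)).1
      exact ⟨G, ⟨x, hx, i, hi, hG.dat⟩, hx, hG.dat.le⟩
    · obtain ⟨i', h, -⟩ := S.cv x' hx' x hx.1 i j G hi hG hx.2
      exact ⟨hx.1, i', h⟩
  have hr : ∀ G ∈ hf.toFinset, Cf (S.On G) (fun x => w1 (S.ea a x)) ∧
      Itg χ (S.On G) (fun x => w1 (S.ea a x)) = 0 := fun G hG => by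
    have z := S.zf rFl ha (hs (hf.mem_toFinset.1 hG))
    obtain ⟨x, hx, i, hi, h⟩ := hf.mem_toFinset.1 hG
    exact srg χ L d 0 0 X₀ S.toSf (S.ea a) G hχ ha (hT x hx i G hi h) z.exp z.thr z.base
  rw [e, ((sintB χ L ℂ hχ).sum _ _ _ _ (fun G hG => (hr G hG).1) fun G hG G' hG' hne =>
    Set.disjoint_left.2 fun y hy hy' => hne ?_).2]
  · exact Finset.sum_eq_zero fun G hG => (hr G hG).2
  obtain ⟨x, hx, i, hi, h⟩ := hf.mem_toFinset.1 hG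
  obtain ⟨x', hx', i', hi', h'⟩ := hf.mem_toFinset.1 hG'
  obtain ⟨l, h1, h2⟩ := S.cv x hx y hy.1 i j G hi h hy.2
  obtain ⟨l', h1', h2'⟩ := S.cv x' hx' y hy.1 i' j G' hi' h' hy'.2
  obtain rfl := S.inj y hy.1 l l' j h1 h1'
  exact (rFl L _ y l (S.rg y hy.1)).2.1 G G' h2 h2'

theorem ne_of_chi (hχ : IsEu χ) {W : Set (Loc L)} (h : chiP χ W ≠ 0) : W.Nonempty := by
  by_contra hn
  obtain rfl := not_nonempty_iff_eq_empty.1 hn
  have h1 := (sintB χ L ℂ hχ).cst ∅ 0 1 (sintA χ L hχ).emp (by simp)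
  rw [(sintB χ L ℂ hχ).cst ∅ 0 0 (sintA χ L hχ).emp (by simp)] at h1
  exact h (by simpa using h1.symm)

end Srf

variable {f : Po 3} {M : M3.Mod 3} {la : ℚ} {χ : H36.Chi} {C : Loc (KK 3) → Co (KK 3) 3}
  {lab : Loc (KK 3) → Fin 3 → Option M.J}

theorem ad1 {o : M.J} {k : Type} [Field k] [Algebra ℂ k] {P : Pl (KK 3) k}
    {S : LSf k (xb P) M.J} {rs : Loc (KK 3) → Loc k} {e : Dv k} (hp : Pts M f C lab)
    (hS : IsSf M C lab o P S rs) (h0 : M.ex la o = 0) (he : P.RsD (dvf f la) e) :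
    S.Ad e fun j => (M.ex la j : ℂ) := fun x hx => by
  rw [hS.X] at hx
  obtain ⟨y, ⟨hy, h1⟩, rfl⟩ := hx
  obtain ⟨i, hi⟩ := ((hp y hy).on o).1 h1
  have h2 : (C y).Dat y.O P.o i := hS.po ▸ (hp y hy).dat i o hi
  have h3 := h2.exp ((hp y hy).ad la)
  simp only [hi, Option.elim_some, h0, Rat.cast_zero] at h3
  obtain ⟨hC, hl⟩ := hS.crd y hy i hi
  intro l
  rw [LSf.ea, hl]
  exact hC.Ad h2 (hS.O y hy h1) h3 he ((hp y hy).ad la) l

theorem card_three (hχ : IsEu χ) (hp : Pts M f C lab) {I : Finset M.J}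
    (h : chiP χ (M.str I) ≠ 0) : I.card ≤ 3 := by
  obtain ⟨Q, hQ, h1⟩ := ne_of_chi hχ h
  choose i hi using fun j : I => ((hp Q hQ).on j).1 ((h1 j).2 j.2)
  simpa using Fintype.card_le_of_injective i fun j j' e =>
    Subtype.ext (Option.some.inj ((hi j).symm.trans (e ▸ hi j')))

open Classical in
theorem card_two (h3 : T3) {b : ℂ[X]} (hf : f ≠ 0) (hb : H10.IsBS ![f] b) (hM : M.OK f)
    (hχ : IsEu χ) (hn : ¬(X + Polynomial.C (la : ℂ)) ^ 3 ∣ b) (I : Finset M.J)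
    (h : chiP χ (M.str I) ≠ 0) : (I.filter fun j => (M.ex la j : ℂ) = 0).card ≤ 2 := by
  by_contra! h2
  obtain ⟨Q, hQ, h1⟩ := ne_of_chi hχ h
  obtain ⟨o, ho, j, hj, l, hl, e1, e2, e3⟩ := Finset.two_lt_card.1 h2
  rw [Finset.mem_filter] at ho hj hl
  exact hn (h3 f la b M Q o j l hf hb hM hQ e1 e2 e3 (by exact_mod_cast ho.2)
    (by exact_mod_cast hj.2) (by exact_mod_cast hl.2) ((h1 o).2 ho.1) ((h1 j).2 hj.1)
    ((h1 l).2 hl.1))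

theorem pair_zero (h2 : T2) {b : ℂ[X]} (hf : f ≠ 0) (hb : H10.IsBS ![f] b) (hM : M.OK f)
    (hχ : IsEu χ) (hr : b.eval (-(la : ℂ)) = 0) (hn : ¬(X + Polynomial.C (la : ℂ)) ^ 2 ∣ b)
    {o o' : M.J} (hne : o ≠ o') (ho : M.ex la o = 0) (ho' : M.ex la o' = 0) :
    ∑ I with o ∈ I ∧ o' ∈ I, (chiP χ (M.str I) : ℂ) * WW (fun j => (M.ex la j : ℂ)) I = 0 := by
  obtain ⟨C, lab, hP⟩ := rPt eout f M hf hM
  obtain ⟨S, rs, hS⟩ := rSurf eout scon f M C lab o _ (M.v o).pl hM hP rfl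
  obtain ⟨-, -, e, -, he, -⟩ := exists_rat (P := (M.v o).pl) hM ho rfl
  have ha := ad1 hP hS ho he
  have hT : S.St χ o fun I => chiP χ (M.str I) :=
    ⟨sintA χ _ hχ, sintB χ _ ℂ hχ, fun x hx => hS.bk_no hP hx,
      fun I hI => rCht eout scon schi χ f M C lab o _ _ _ _ I hχ hM hP hS hI⟩
  rw [(hT.pair hne _).2, ← rg_lab S hχ ha (j := o') (by exact_mod_cast ho') ?_]
  · exact hT.B.congr _ _ _ fun x hx => (S.w1_W (by exact_mod_cast ho) hx.1).symm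
  intro x hx i G hi hG
  have hE : Exp e G 0 := by simpa [LSf.ea, hi, ho'] using hG.exp (ha x hx)
  have hr' := S.rg x hx
  rw [hS.X] at hx
  obtain ⟨Q, ⟨hQ, h1⟩, rfl⟩ := hx
  obtain ⟨l, hl⟩ := ((hP Q hQ).on o).1 h1
  obtain ⟨hC, h4⟩ := hS.crd Q hQ l hl
  have hV : M.IsCv o o' (lift (M.v o).pl G) :=
    RSurf.isCv (P := (M.v o).pl) (eout.bas 3 f M hM) rfl (hP Q hQ)
      ⟨fun g hg => h1 g hg, hS.O Q hQ h1⟩ hl hC ((h4 i).symm.trans hi) hG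
  have key := fun e' => h2 f la b M o o' G e e' hf hb hM hr hn ho ho' ⟨_, hG.adp.vz⟩ hV he
  obtain ⟨e', he'⟩ := Pl.exists_RsD (P := G.pl) hE hG.adp.vz
    ((rFl _ _ _ i hr').2.2.1 G hG).2.2.2.1
  refine ty_of hr' hG hE (fun e' h => (key e' h).1) ?_
  rintro _ ⟨m, rfl⟩
  exact (key e' he').2 m

open Classical in
theorem top2 (h3 : T3) (h2 : T2) : Main2 := by
  intro f b Y π J _ E a k χ hf hb hY hχ
  refine poly_of_reg fun s => ?_
  by_cases hr : b.IsRoot s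
  swap
  · exact mul_mem (poly_mem s b) fun h => hr (M3.main f b Y π J E a k χ hf hb hY hχ s h)
  obtain ⟨M, hM, -⟩ := M3E.sb1 3 f {1} hf ⟨0, by simp⟩
  obtain ⟨χ₀, hχ₀, hz⟩ := M3L.sdat_all 3 f Y π J E a k χ hY hχ
  rw [hz M hM]
  by_cases hj : ∃ j, (M.a j : ℂ) * s + M.k j + 1 = 0
  swap
  · push Not at hj
    exact mul_mem (poly_mem s b) (sum_mem fun I _ =>
      mul_mem (intCast_mem _ _) (prod_mem fun i _ => lin_mem (hj i)))
  obtain ⟨j, hj⟩ := hj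
  have ha : (M.a j : ℂ) ≠ 0 := Nat.cast_ne_zero.2 (hM.pos j).ne'
  obtain ⟨la, rfl⟩ : ∃ la : ℚ, s = -(la : ℂ) := ⟨(M.k j + 1) / M.a j, by
    push_cast
    field_simp
    linear_combination hj⟩
  have hx : ∀ j, (M.ex la j : ℂ) = M.k j + 1 - la * M.a j := fun j => by simp [Mod.ex]
  by_cases c3 : (X + Polynomial.C (la : ℂ)) ^ 3 ∣ b
  · obtain ⟨C, lab, hP⟩ := rPt eout f M hf hM
    exact mul_reg c3 (ord_le hM.pos hx fun I hI =>
      (Finset.card_filter_le _ _).trans (card_three hχ₀ hP hI))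
  have t2 := card_two h3 hf hb hM hχ₀ c3
  by_cases c2 : (X + Polynomial.C (la : ℂ)) ^ 2 ∣ b
  · exact mul_reg c2 (ord_le hM.pos hx t2)
  refine mul_reg (n := 1) ?_ ?_
  · rwa [pow_one, ← sub_neg_eq_add, ← Polynomial.C_neg, dvd_iff_isRoot]
  rw [pow_one]
  exact ord_one hM.pos hx t2 (comb2 _ _ _ t2 fun o o' hn ho ho' =>
    pair_zero h2 hf hb hM hχ₀ hr c2 hn (by exact_mod_cast ho) (by exact_mod_cast ho'))

end Pool.Agent.MP_ee8c61_ag.Q3BK
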