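import Pool.Agent.MP_ee8c61_ag.Q3BK.Spec
import Pool.Agent.MP_ee8c61_ag.M3BK.RP1
import Pool.Agent.MP_ee8c61_ag.M3F.All

/-! The type of a complete curve from the exponents at its places. -/

namespace Pool.Agent.MP_ee8c61_ag.Q3BK

open M3 M3RESID M3BK M3F Finset WithZero Pool.Agent.MP_cce4c9_lc.H87
open scoped IntermediateField

noncomputable section

variable {k : Type} [Field k] [Algebra ℂ k]

open RP1 in
/-- The divergence of the Euler field is constant. -/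
theorem delta_eq {σ : k} {θ : VF k} (h : P1 σ θ) (e : Dv k) {μ : ℂ}
    (hE : ∀ U, Nrm U → ∃ a, Exp e U a ∧ (U.v σ < 0 → a = -μ) ∧ (U.v σ = 0 → a = 1)) :
    e.δ θ = algebraMap ℂ k μ := by
  classical
  choose U hU using exists_U h
  have h0 : σ ≠ 0 := by simpa using lin_ne h 0
  have hσ : ∀ c, (U c).v σ = RP1.val c 0 := fun c => by simpa using hU c 0
  have h1 : ∀ c, (U (some c)).v (σ - algebraMap ℂ k c) = 1 := fun c => by
    rw [hU, RP1.val, if_pos rfl]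
  have hi : (U none).v σ⁻¹ = 1 := by rw [DV.inv, hσ, RP1.val, neg_neg]
  have hc : ∀ a c : ℂ, algebraMap ℂ k a / (σ - algebraMap ℂ k c) ∈ (U none).F 1 := fun a c => by
    simpa [hU, RP1.val] using F_div (cst_F (U none) a) (σ - algebraMap ℂ k c)
  have hθ : ∀ c, θ (σ - algebraMap ℂ k c) = σ := fun c => by
    rw [map_sub, Derivation.map_algebraMap, sub_zero, h.eul]
  have key : ∀ U', Nrm U' → e.δ θ - algebraMap ℂ k μ ∈ U'.F 0 ∧
      (U'.v σ < 0 → e.δ θ - algebraMap ℂ k μ ∈ U'.F 1) := fun U' hN => by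
    obtain ⟨a, ha, a1, a2⟩ := hE U' hN
    obtain ⟨_ | c, rfl⟩ := classify h hU hN
    · have h2 := ha.of_eul hi (eul h (τ := -θ) fun c => by
        have := lin_ne h c
        rw [Derivation.neg_apply, hθ, hU, RP1.val]
        exact F_of_eq (neg_mem (hc c c)) (by push_cast; field_simp; ring))
      rw [a1 (by rw [hσ, RP1.val]; omega), map_neg, map_neg] at h2
      have h3 : e.δ θ - algebraMap ℂ k μ ∈ (U none).F 1 := F_of_eq (neg_mem h2) (by ring)
      exact ⟨(U none).F_anti zero_le_one h3, fun _ => h3⟩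
    · have h2 := ha.of_eul (h1 c) (eul h (τ := ((σ - algebraMap ℂ k c) / σ) • θ) fun c' => by
        rw [Derivation.smul_apply, hθ, smul_eq_mul, div_mul_cancel₀ _ h0]
        by_cases e : c = c'
        · simp [← e, h1, div_self (lin_ne h c)]
        · have := F_div (Or.inr (h1 c).ge : _ ∈ (U (some c)).F 1) (σ - algebraMap ℂ k c')
          rw [hU, RP1.val, if_neg e] at this ⊢
          simpa using this)
      refine ⟨?_, fun e => absurd e (by rw [hσ, RP1.val]; split_ifs <;> omega)⟩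
      by_cases e0 : c = 0
      · rw [e0, map_zero, sub_zero, div_self h0, one_smul] at h2
        rw [e0]
        exact F_of_eq (add_mem ((U (some 0)).F_anti zero_le_one h2) (cst_F _ (a - μ)))
          (by rw [map_sub]; ring)
      · have h4 : (U (some c)).v σ = 0 := by rw [hσ, RP1.val, if_neg e0]
        have h3 := F_div (Or.inr (h1 c).ge : _ ∈ (U (some c)).F 1) σ
        rw [h4, sub_zero] at h3
        rw [e.smul, a2 h4, Derivation.leibniz_div, hθ, h.eul] at h2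
        have h5 := F_div (add_mem h2 h3) (σ - algebraMap ℂ k c)
        rw [h1, sub_self] at h5
        have h6 := F_mul0 (Or.inr h4.ge : σ ∈ (U (some c)).F 0) h5
        have := lin_ne h c
        refine sub_mem (F_of_eq h6 ?_) (cst_F _ _)
        simp only [map_one, smul_eq_mul]
        field_simp
        ring
  by_contra hn
  have ht := sub_ne_zero.2 hn
  obtain ⟨⟨V, -, v1, v2, -, -, -, v3⟩, -⟩ := rP1 k σ θ h
  obtain ⟨f1, f2⟩ := v3 (e.δ θ - algebraMap ℂ k μ)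
  have n1 : ∀ c, Nrm (V c) := fun c => (v1 _).2 ⟨c, rfl⟩
  have h5 := ((key _ (n1 none)).2 (by omega)).resolve_left ht
  have h6 := single_le_sum (s := insert none f1.toFinset)
    (f := fun c => (V c).v (e.δ θ - algebraMap ℂ k μ))
    (fun c _ => (key _ (n1 c)).1.resolve_left ht) (mem_insert_self _ _)
  rw [finsum_eq_sum_of_support_subset _ (s := insert none f1.toFinset)
    (by simp +contextual [Set.subset_def])] at f2
  omega

/-- The constants as a subfield. -/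
abbrev K0 (k : Type) [Field k] [Algebra ℂ k] : IntermediateField ℂ k := ⊥

theorem top_of {y : k} (h : (K0 k)⟮y⟯ = ⊤) : ℂ⟮y⟯ = ⊤ := by
  have := congrArg (IntermediateField.restrictScalars ℂ) h
  rwa [IntermediateField.restrictScalars_adjoin, IntermediateField.restrictScalars_top,
    IntermediateField.adjoin_union, IntermediateField.adjoin_eq_bot_iff.2 subset_rfl,
    bot_sup_eq] at this

theorem hor_iff {U : DV k} : Hor (K0 k) U ↔ Nrm U :=
  ⟨fun h => h.1, fun h => ⟨h, fun x hx => by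
    obtain ⟨c, rfl⟩ := IntermediateField.mem_bot.1 hx
    exact cst_F U c⟩⟩

theorem kill0 (D : VF k) : ∀ x ∈ K0 k, D x = 0 := fun x hx => by
  obtain ⟨c, rfl⟩ := IntermediateField.mem_bot.1 hx
  simp

theorem cl0 : M3G.Cl (K0 k) k := fun x hx => by
  have : Algebra.IsAlgebraic ℂ (K0 k) := ⟨fun y => by
    obtain ⟨c, hc⟩ := IntermediateField.mem_bot.1 y.2
    rw [show y = algebraMap ℂ (K0 k) c from Subtype.ext hc.symm]
    exact isAlgebraic_algebraMap c⟩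
  by_contra hn
  refine MP_cce4c9_lc.H14.transc (k := ℂ) (s := x) ?_ (hx.restrictScalars ℂ)
  rintro ⟨c, rfl⟩
  exact hn ⟨algebraMap ℂ (K0 k) c, rfl⟩

theorem isFF0 (hk : IsFF ℂ k) : IsFF (K0 k) k := by
  obtain ⟨t, h1, h2⟩ := hk
  refine ⟨t, fun h => h1 ?_, ?_⟩
  · obtain ⟨c, rfl⟩ := cl0 t h
    obtain ⟨c', hc⟩ := IntermediateField.mem_bot.1 c.2
    exact (show algebraMap ℂ k c' = algebraMap (K0 k) k c from hc) ▸ isAlgebraic_algebraMap c'
  · have hle : ℂ⟮t⟯ ≤ ((K0 k)⟮t⟯).restrictScalars ℂ :=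
      IntermediateField.adjoin_simple_le_iff.2 (IntermediateField.mem_adjoin_simple_self _ t)
    let _ : Algebra ℂ⟮t⟯ (K0 k)⟮t⟯ := (IntermediateField.inclusion hle).toAlgebra
    have : IsScalarTower ℂ⟮t⟯ (K0 k)⟮t⟯ k := IsScalarTower.of_algebraMap_eq fun _ => rfl
    exact Module.Finite.of_restrictScalars_finite ℂ⟮t⟯ _ _

variable {D : VF k} {N : Place (K0 k) k → ℕ} {e : Dv k} {A : Place (K0 k) k → ℚ}

theorem fin_y (D0 : D ≠ 0)
    (hA : ∀ P, Exp e (dvOf P) (A P)) {P₀ : Place (K0 k) k} (a₀ : A P₀ ≠ 0) {y : k}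
    (h1 : P₀.ord y = -1) (h2 : ∀ P, P ≠ P₀ → P.val y ≤ 1) (h3 : (K0 k)⟮y⟯ = ⊤)
    (h4 : ∀ P, P.ord y = 0 → A P = 1) : Ty1 e := by
  have y0 : y ≠ 0 := fun e => by simp [e] at h1
  have h5 := top_of h3
  have hy : D y ≠ 0 := fun h => D0 (Derivation.ext fun x => by
    have : ℂ⟮y⟯ ≤ cst {D} := IntermediateField.adjoin_simple_le_iff.2 (by simpa [mem_cst] using h)
    exact this (h5 ▸ IntermediateField.mem_top) D rfl)
  have hP : P1 y ((y / D y) • D) := ⟨MP_cce4c9_lc.H14.transc (by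
    rintro ⟨c, rfl⟩
    exact hy (by simp)), h5, by rw [Derivation.smul_apply, smul_eq_mul, div_mul_cancel₀ _ hy]⟩
  refine ⟨y, _, -(A P₀ : ℂ), neg_ne_zero.2 (by exact_mod_cast a₀), hP,
    delta_eq hP e fun U hU => ?_⟩
  obtain ⟨P, rfl⟩ := exists_place (hor_iff.2 hU)
  refine ⟨_, hA P, fun h => ?_, fun h => by rw [h4 P h, Rat.cast_one]⟩
  by_cases hp : P = P₀
  · rw [hp, neg_neg]
  · exact absurd ((P.val_le_one (P.val_ne y0)).1 (h2 P hp)) (not_le.2 h)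

theorem fin_one (hD : M3G.Deg (rel (K0 k) D (kill0 D)) 0 N) (D0 : D ≠ 0)
    (hA : ∀ P, Exp e (dvOf P) (A P)) {P₀ : Place (K0 k) k} (n₀ : N P₀ = 1) (a₀ : A P₀ ≠ 0)
    (hr : ∀ P, P ≠ P₀ → A P = 1) : Ty1 e := by
  obtain ⟨y, h1, h2, h3, -⟩ := hD.rat rfl P₀ n₀
  exact fin_y D0 hA a₀ h1 h2 h3 fun P h => hr P fun e => by rw [e] at h; omega

theorem fin_two (hD : M3G.Deg (rel (K0 k) D (kill0 D)) 0 N) (D0 : D ≠ 0)
    (hA : ∀ P, Exp e (dvOf P) (A P)) {P₀ P₁ : Place (K0 k) k} (n₀ : N P₀ = 1) (n₁ : N P₁ = 1)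
    (hne : P₁ ≠ P₀) (a₀ : A P₀ ≠ 0) (hr : ∀ P, P ≠ P₀ → P ≠ P₁ → A P = 1) : Ty1 e := by
  obtain ⟨y, h1, h2, h3, h4⟩ := hD.rat rfl P₀ n₀
  obtain ⟨c, hc1⟩ := h4 P₁ n₁ hne
  have hy0 : y ≠ 0 := fun e => by simp [e] at h1
  have g1 : P₀.ord (y - algebraMap _ k c) = -1 := P₀.ord_eq (by
    have e : P₀.val y = exp 1 := by rw [P₀.val_eq (P₀.val_ne hy0), h1, neg_neg]
    rw [P₀.val.map_sub_eq_of_lt_left, e, neg_neg]
    exact (P₀.const_le c).trans_lt (by rw [e, ← exp_zero, exp_lt_exp]; omega))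
  have g2 : ∀ P, P ≠ P₀ → P.val (y - algebraMap _ k c) ≤ 1 := fun P hP =>
    (P.val.map_sub _ _).trans (max_le (h2 P hP) (P.const_le c))
  have g3 : (K0 k)⟮y - algebraMap _ k c⟯ = ⊤ := by
    rw [eq_top_iff, ← h3, IntermediateField.adjoin_simple_le_iff]
    simpa using add_mem (IntermediateField.mem_adjoin_simple_self (K0 k) (y - algebraMap _ k c))
      (IntermediateField.algebraMap_mem _ c)
  have g4 := simple_zero hD n₀ g1 g2 hc1
  exact fin_y D0 hA a₀ g1 g2 g3 fun P h =>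
    hr P (fun e => by rw [e] at h; omega) fun e => by rw [e] at h; omega

/-- The volume form is rationally twisted. -/
def Rat1 (e : Dv k) : Prop :=
  ∃ (D : VF k) (q : ℕ) (ψ : k), D ≠ 0 ∧ 0 < q ∧ ψ ≠ 0 ∧ e.δ D = D ψ / (q * ψ)

/-- The type of the curve from a class `β` of degree at most zero. -/
theorem crv (hk : IsFF ℂ k) (hr : Rat1 e) (β : DV k → ℚ) {n : ℕ} {φ : k} (hn : 0 < n)
    (h1 : ∀ U, Nrm U → ∃ a : ℚ, Exp e U a ∧
      (a = β U ∨ (β U = 0 ∧ ∃ r : ℕ, 0 < r ∧ a = 1 / r)))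
    (h2 : ∀ U, Nrm U → n * β U ≤ U.v φ) (h3 : ∃ U, Nrm U ∧ β U < 0) : Ty1 e := by
  classical
  have := cz (K0 k)
  obtain ⟨D, q, ψ, D0, hq, hψ, hd⟩ := hr
  obtain ⟨g, N, hD⟩ := gf (K0 k) k (isFF0 hk) cl0 (rel (K0 k) D (kill0 D)) fun h =>
    D0 (Derivation.ext fun x => congrArg (fun Z : Derivation (K0 k) k k => Z x) h)
  set Y := rel (K0 k) D (kill0 D)
  have hN : ∀ P, (1 : ℚ) ≤ N P := fun P => by exact_mod_cast hD.pos P
  have hn' : (0 : ℚ) < n := by exact_mod_cast hn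
  obtain ⟨S, hS⟩ : ∃ S : Finset (Place (K0 k) k), ∀ P, P ∉ S →
      P.ord φ = 0 ∧ P.ord ψ = 0 ∧ M3C.cw Y P = 0 :=
    ⟨(hD.fin φ).toFinset ∪ (hD.fin ψ).toFinset ∪ hD.finc.toFinset, fun P hP => by
      simpa [and_assoc] using hP⟩
  obtain ⟨A, hA⟩ : ∃ A : Place (K0 k) k → ℚ, ∀ P, A P = P.ord ψ / q + 1 + M3C.cw Y P :=
    ⟨_, fun _ => rfl⟩
  have cls : ∀ P, Exp e (dvOf P) (A P) ∧ (A P = β (dvOf P) ∨ (β (dvOf P) = 0 ∧
      (A P = 1 ∨ (0 < A P ∧ A P ≤ 1 / 2)))) := fun P => by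
    obtain ⟨a, ha, hb⟩ := h1 _ (hor_dvOf P).1
    obtain rfl : a = A P := (exp_eq ha hq hψ hd (M3C.val_unif P)
      (hD.uni P _ (M3C.val_unif P)) (hD.reg P)).trans (hA P).symm
    refine ⟨ha, hb.imp_right fun ⟨x, r, r0, hr⟩ => ⟨x, ?_⟩⟩
    rcases (Nat.succ_le_of_lt r0).eq_or_lt with e | e
    · exact Or.inl (by rw [hr, ← e]; norm_num)
    · have : (2 : ℚ) ≤ r := by exact_mod_cast e
      exact Or.inr ⟨by rw [hr]; positivity, hr ▸ one_div_le_one_div_of_le (by norm_num) this⟩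
  have off : ∀ P, P ∉ S → A P = 1 ∧ β (dvOf P) = 0 := fun P hP => by
    have a1 : A P = 1 := by simp [hA, hS P hP]
    refine ⟨a1, ((cls P).2.resolve_left fun x => ?_).1⟩
    have := h2 _ (hor_dvOf P).1
    rw [← x, a1, show (dvOf P).v φ = 0 from (hS P hP).1] at this
    push_cast at this
    linarith
  have can : ∑ P ∈ S, (N P : ℚ) * (A P - 1) = 2 * g - 2 := by
    have e1 : ∑ P ∈ S, (N P : ℚ) * P.ord ψ = 0 := by
      exact_mod_cast hD.deg ψ S fun P hP => (hS P hP).2.1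
    have e2 : ∑ P ∈ S, (N P : ℚ) * M3C.cw Y P = 2 * g - 2 := by
      exact_mod_cast hD.can S fun P hP => (hS P hP).2.2
    rw [← e2, ← zero_add (∑ P ∈ S, (N P : ℚ) * M3C.cw Y P), ← zero_div (q : ℚ), ← e1, sum_div,
      ← sum_add_distrib]
    exact sum_congr rfl fun P _ => by rw [hA]; ring
  have sm : ∑ P ∈ S, (N P : ℚ) * (β (dvOf P) - A P + 1) =
      ∑ P ∈ S, (N P : ℚ) * β (dvOf P) + 2 - 2 * g := by
    have : ∑ P ∈ S, (N P : ℚ) * (β (dvOf P) - A P + 1) =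
        ∑ P ∈ S, (N P : ℚ) * β (dvOf P) - ∑ P ∈ S, (N P : ℚ) * (A P - 1) := by
      rw [← sum_sub_distrib]
      exact sum_congr rfl fun P _ => by ring
    rw [this, can]
    ring
  have le : ∑ P ∈ S, (N P : ℚ) * β (dvOf P) ≤ 0 := by
    have e1 : ∑ P ∈ S, (N P : ℚ) * P.ord φ = 0 := by
      exact_mod_cast hD.deg φ S fun P hP => (hS P hP).1
    refine le_of_mul_le_mul_left ?_ hn'
    rw [mul_zero, ← e1, mul_sum]
    refine sum_le_sum fun P _ => ?_
    rw [mul_left_comm]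
    exact mul_le_mul_of_nonneg_left (h2 _ (hor_dvOf P).1) (Nat.cast_nonneg _)
  have nn : ∀ P ∈ S, 0 ≤ β (dvOf P) - A P + 1 := fun P _ => by
    rcases (cls P).2 with e | ⟨e, e' | ⟨-, e'⟩⟩ <;> linarith
  have core : ∀ P, β (dvOf P) ≠ 0 → P ∈ S ∧ A P = β (dvOf P) := fun P e =>
    ⟨by_contra fun x => e (off P x).2, (cls P).2.resolve_right fun x => e x.1⟩
  obtain ⟨U, hU, h₀⟩ := h3
  obtain ⟨P₀, rfl⟩ := exists_place (hor_iff.2 hU)
  obtain ⟨m₀, e₀⟩ := core P₀ h₀.ne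
  have a₀ : A P₀ ≠ 0 := e₀ ▸ h₀.ne
  have s1 := le_one (N := N) nn m₀
  rw [sm, e₀] at s1
  obtain rfl : g = 0 := by
    have : (g : ℚ) < 1 := by linarith [hN P₀]
    exact Nat.lt_one_iff.1 (by exact_mod_cast this)
  have one : ∀ P, (N P : ℚ) < 2 → N P = 1 := fun P h => by
    have h1 : N P < 2 := by exact_mod_cast h
    have := hD.pos P
    omega
  have big : ∀ P, A P ≠ 1 → P ∈ S ∧ 1 / 2 ≤ β (dvOf P) - A P + 1 := fun P h =>
    ⟨by_contra fun x => h (off P x).1, by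
      rcases (cls P).2 with e | ⟨e, e' | ⟨-, e'⟩⟩
      · linarith
      · exact absurd e' h
      · linarith⟩
  push_cast at sm s1
  rcases le.lt_or_eq with hlt | h0
  · have n₀ := one P₀ (by linarith)
    by_cases hx : ∃ P, P ≠ P₀ ∧ A P ≠ 1
    · obtain ⟨P₁, hne, a₁⟩ := hx
      obtain ⟨m₁, b₁⟩ := big P₁ a₁
      have s2 := le_two (N := N) nn m₀ m₁ hne.symm
      rw [sm, e₀] at s2
      refine fin_two hD D0 (fun P => (cls P).1) n₀ (one P₁ (by nlinarith [hN P₀, hN P₁])) hne a₀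
        fun P x y => by_contra fun z => ?_
      obtain ⟨m, b⟩ := big P z
      have s3 := le_three (N := N) nn m₀ m₁ m hne.symm x.symm y.symm
      rw [sm, e₀] at s3
      nlinarith [hN P₀, hN P₁, hN P]
    · exact fin_one hD D0 (fun P => (cls P).1) n₀ a₀ fun P x => by_contra fun z => hx ⟨P, x, z⟩
  · obtain ⟨P₁, h₁⟩ : ∃ P : Place (K0 k) k, 0 < β (dvOf P) := by
      by_contra! hn
      exact absurd h0 (ne_of_lt (sum_neg' (fun P _ => mul_nonpos_of_nonneg_of_nonpos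
        (Nat.cast_nonneg _) (hn P)) ⟨P₀, m₀, mul_neg_of_pos_of_neg (by linarith [hN P₀]) h₀⟩))
    obtain ⟨m₁, e₁⟩ := core P₁ h₁.ne'
    have hne : P₁ ≠ P₀ := fun e => by rw [e] at h₁; linarith
    have s2 := le_two (N := N) nn m₀ m₁ hne.symm
    rw [sm, e₀, e₁, h0] at s2
    refine fin_two hD D0 (fun P => (cls P).1) (one P₀ (by linarith [hN P₁]))
      (one P₁ (by linarith [hN P₀])) hne a₀ fun P x y => by_contra fun z => ?_
    obtain ⟨m, b⟩ := big P z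
    have s3 := le_three (N := N) nn m₀ m₁ m hne.symm x.symm y.symm
    rw [sm, e₀, e₁, h0] at s3
    nlinarith [hN P₀, hN P₁, hN P]

end

end Pool.Agent.MP_ee8c61_ag.Q3BK
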