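import Pool.Agent.MP_ee8c61_ag.Q3BK.Bk
import Pool.Agent.MP_ee8c61_ag.Q3.Defs

/-! The theorem from the statements on the strata of exponent zero. -/

namespace Pool.Agent.MP_ee8c61_ag.Q3BK

theorem top (h3 : Q3.T3) (h2 : Q3.T2) : Q3.Main2 := by
  refine top2 (fun f la b M Q o j l hf hb hM hQ e1 e2 e3 ho hj hl q1 q2 q3 => ?_)
    fun f la b M o j G e e' hf hb hM hr hn ho hj hG hV he he' => ?_
  · refine h3 f la b M {o, j, l} hf hb hM (Finset.card_eq_three.2 ⟨o, j, l, e1, e2, e3, rfl⟩)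
      (fun i hi => ?_) Q hQ fun i hi => ?_ <;>
    · simp only [Finset.mem_insert, Finset.mem_singleton] at hi
      rcases hi with rfl | rfl | rfl <;> assumption
  · obtain ⟨σ, θ, μ, h1, h4, h5, h6⟩ := h2 f la b M o j e G hf hb hM hr hn ho hj he hG hV
    exact ⟨⟨σ, θ, μ, h1, h4, h5 e' he'⟩, fun l => h6 _ ⟨l, rfl⟩⟩

end Pool.Agent.MP_ee8c61_ag.Q3BK
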